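import Pool.Agent.Y156.W.Curve

/-!
# Fine Selmer groups: one representation over number fields of degree prime to `p`

For all odd prime numbers `p`, the conjecture that the `μ`-invariants of the fine Selmer groups over the
cyclotomic `ℤ_p`-extensions vanish, for all number fields and all representations `ρ` over rings of
integers of finite extensions of `ℚ_p`, is equivalent to the statement that the dual fine Selmer group of one
representation `ρ₀ p` over a number field `M p` is a torsion module with `μ = 0` over all number fields `K`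
that contain `M p` and whose degree over `M p` is not divisible by `p`. For instance, `M p = ℚ` and `ρ₀ p` is
the trivial representation, or the Tate module of one elliptic curve over `ℚ`.

The fine Selmer groups are given by their known properties (`IsFine`, `IsMuFine`).
-/

set_option autoImplicit false

namespace Pool.Agent.Results.MP_0a2bc5_nt.OneRepresentation

open Pool.Agent.Y156.W

/-- The reduction to one representation over the number fields of degree prime to `p`. -/
theorem result {Ω : Type} [Field Ω] [Algebra ℚ Ω] [IsAlgClosure ℚ Ω] (T : ℕ → FineData ℚ Ω)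
    (hT : ∀ p : ℕ, p.Prime → p ≠ 2 → IsFine p (T p))
    (mu : ∀ p, (T p).El → IntermediateField ℚ Ω → Prop) (one : ∀ p, (T p).El)
    (hmu : ∀ p : ℕ, p.Prime → p ≠ 2 → IsMuFine (T p) (mu p) (one p))
    (M : ℕ → IntermediateField ℚ Ω) (hM : ∀ p, FiniteDimensional ℚ (M p))
    (ρ₀ : ∀ p, (T p).El) (hρ : ∀ p, (T p).base (ρ₀ p) ≤ M p) :
    (∀ p : ℕ, p.Prime → p ≠ 2 → ∀ ρ (K : IntermediateField ℚ Ω), FiniteDimensional ℚ K →
      (T p).base ρ ≤ K → mu p ρ K) ↔
      ∀ p : ℕ, p.Prime → p ≠ 2 → ∀ K : IntermediateField ℚ Ω, PrimeTo p (M p) K →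
        (T p).fine (ρ₀ p) K :=
  ⟨fun h p hp hp2 => (one_rep hp (hT p hp hp2) (hmu p hp hp2) (hM p) (ρ₀ p) (hρ p)).1 (h p hp hp2),
    fun h p hp hp2 => (one_rep hp (hT p hp hp2) (hmu p hp hp2) (hM p) (ρ₀ p) (hρ p)).2
      (h p hp hp2)⟩

end Pool.Agent.Results.MP_0a2bc5_nt.OneRepresentation
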